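import Pool.Agent.Helper10.GO.GoalsC

/-!
# Project GO (MP_6af536_nt), packet VOL: the volumes exist.
-/

set_option autoImplicit false

open MvPolynomial Filter Topology

noncomputable section

namespace Pool.Agent.Helper16.GO

open Pool.Agent.Helper10.GO Pool.Agent.Helper80.HD Pool.Agent.Helper80.AD

/-! ## Products of subspaces -/

section prods

variable {K L : Type} [Field K] [Field L] [Algebra K L]

lemma one_mul_eq_map (c : L) (V : Submodule K L) :
    Submodule.span K {c} * V = V.map (LinearMap.mulLeft K c) := by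
  rw [Submodule.mul_eq_map₂, Submodule.map₂_span_singleton_eq_map]
  rfl

lemma finrank_scale {c : L} (hc : c ≠ 0) (V : Submodule K L) :
    Module.finrank K (Submodule.span K {c} * V : Submodule K L) = Module.finrank K V := by
  rw [one_mul_eq_map]
  have hinj : Function.Injective (LinearMap.mulLeft K c) := fun a b h => mul_left_cancel₀ hc h
  exact (Submodule.equivMapOfInjective (LinearMap.mulLeft K c) hinj V).finrank_eq.symm

lemma sp_scale {N : ℕ} (c : L) (x : Fin (N + 1) → L) :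
    sp K (fun i => c * x i) = Submodule.span K {c} * sp K x := by
  unfold sp
  rw [Submodule.span_mul_span]
  congr 1
  ext z
  constructor
  · rintro ⟨i, rfl⟩
    exact Set.mul_mem_mul rfl ⟨i, rfl⟩
  · rintro ⟨a, ha, b, ⟨i, rfl⟩, rfl⟩
    rw [Set.mem_singleton_iff] at ha
    subst ha
    exact ⟨i, rfl⟩

lemma span_pow_single (c : L) (n : ℕ) : (Submodule.span K {c} : Submodule K L) ^ n = Submodule.span K {c ^ n} := by
  rw [Submodule.span_pow]
  congr 1
  exact Set.singleton_pow c n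

/-- the dimension of the product of powers does not change if the vectors are scaled -/
lemma finrank_prod_scale {N : ℕ} {c c' : L} (hc : c ≠ 0) (hc' : c' ≠ 0) (x y : Fin (N + 1) → L) (a e : ℕ) :
    Module.finrank K (sp K (fun i => c * x i) ^ a * sp K (fun i => c' * y i) ^ e : Submodule K L) =
      Module.finrank K (sp K x ^ a * sp K y ^ e : Submodule K L) := by
  rw [sp_scale, sp_scale, mul_pow, mul_pow, mul_mul_mul_comm, span_pow_single, span_pow_single,
    Submodule.span_mul_span, Set.singleton_mul_singleton]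
  exact finrank_scale (mul_ne_zero (pow_ne_zero _ hc) (pow_ne_zero _ hc')) _

lemma sp_fg {N : ℕ} (x : Fin (N + 1) → L) : (sp K x).FG :=
  Submodule.fg_span (Set.finite_range x)

lemma fd_of_fg {V : Submodule K L} (h : V.FG) : FiniteDimensional K V :=
  Module.Finite.iff_fg.2 h

lemma finrank_le_of_le {V W : Submodule K L} (hW : W.FG) (h : V ≤ W) : Module.finrank K V ≤ Module.finrank K W := by
  have : Module.Finite K W := fd_of_fg hW
  exact Submodule.finrank_mono h

/-- a product with a power of a nonzero span is at least as large -/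
lemma finrank_left_le {N : ℕ} (x y : Fin (N + 1) → L) {q : Fin (N + 1)} (hq : y q ≠ 0) (a e : ℕ) :
    Module.finrank K (sp K x ^ a : Submodule K L) ≤
      Module.finrank K (sp K x ^ a * sp K y ^ e : Submodule K L) := by
  rw [← finrank_scale (K := K) (pow_ne_zero e hq) (sp K x ^ a)]
  refine finrank_le_of_le (((sp_fg x).pow a).mul ((sp_fg y).pow e)) ?_
  rw [mul_comm]
  refine mul_le_mul' le_rfl ?_
  rw [← span_pow_single]
  refine pow_le_pow_left' ?_ e
  rw [Submodule.span_le, Set.singleton_subset_iff]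
  exact Submodule.subset_span ⟨q, rfl⟩

end prods

/-! ## Forms -/

lemma aeval_scale {K : Type} [Field K] [Algebra K ℂ] {N n : ℕ} {F : MvPolynomial (Fin (N + 1)) K}
    (hF : F.IsHomogeneous n) (c : ℂ) (x : Fin (N + 1) → ℂ) :
    aeval (fun i => c * x i) F = c ^ n * aeval x F := by
  rw [aeval_def, aeval_def, eval₂_eq', eval₂_eq', Finset.mul_sum]
  refine Finset.sum_congr rfl fun s hs => ?_
  have h1 : s.degree = n := by
    have := hF (mem_support_iff.1 hs)
    rw [Finsupp.degree_eq_weight_one (R := ℕ)]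
    exact this
  have h2 : ∑ i, s i = n := by
    rw [← h1, Finsupp.degree_eq_sum]
  simp only [mul_pow]
  rw [Finset.prod_mul_distrib, Finset.prod_pow_eq_pow_sum, h2]
  ring

/-! ## The fields -/

section fields

variable {K : Type} [Field K] [Algebra K ℂ]

lemma adjoin_eq {N : ℕ} (x : Fin (N + 1) → ℂ) {p : Fin (N + 1)} (hp : x p ≠ 0) (Z : Submodule K ℂ)
    (h1 : sp K (fun i => (x p)⁻¹ * x i) ≤ Z) (h2 : ∀ z ∈ Z, z ∈ ratioField K x) :
    IntermediateField.adjoin K (Z : Set ℂ) = ratioField K x := by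
  apply le_antisymm
  · rw [IntermediateField.adjoin_le_iff]
    exact fun z hz => h2 z hz
  · unfold ratioField
    rw [IntermediateField.adjoin_le_iff]
    rintro c ⟨i, j, rfl⟩
    have hx : ∀ i, (x p)⁻¹ * x i ∈ IntermediateField.adjoin K (Z : Set ℂ) := fun i =>
      IntermediateField.subset_adjoin K _ (h1 (Submodule.subset_span ⟨i, rfl⟩))
    have : x i / x j = ((x p)⁻¹ * x i) / ((x p)⁻¹ * x j) := by
      rw [mul_div_mul_left _ _ (inv_ne_zero hp)]
    rw [this]
    exact div_mem (hx i) (hx j)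

lemma ratio_mem {N : ℕ} (x : Fin (N + 1) → ℂ) (i j : Fin (N + 1)) : x i / x j ∈ ratioField K x :=
  IntermediateField.subset_adjoin K _ ⟨i, j, rfl⟩

/-- the quotients of the values of forms of the same degree -/
lemma quot_mem {N n : ℕ} (x : Fin (N + 1) → ℂ) {p : Fin (N + 1)} (hp : x p ≠ 0)
    {F G : MvPolynomial (Fin (N + 1)) K} (hF : F.IsHomogeneous n) (hG : G.IsHomogeneous n) :
    aeval x F / aeval x G ∈ ratioField K x := by
  have hval : ∀ F : MvPolynomial (Fin (N + 1)) K, aeval (fun i => (x p)⁻¹ * x i) F ∈ ratioField K x := by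
    intro F
    have hx : ∀ i, (x p)⁻¹ * x i ∈ ratioField K x := fun i => by
      rw [mul_comm, ← div_eq_mul_inv]
      exact ratio_mem x i p
    have h := (aeval (fun i => (⟨(x p)⁻¹ * x i, hx i⟩ : ratioField K x)) F).2
    rwa [← IntermediateField.coe_val, ← AlgHom.comp_apply, MvPolynomial.comp_aeval] at h
  have h1 := hval F
  have h2 := hval G
  rw [aeval_scale hF] at h1
  rw [aeval_scale hG] at h2
  have h3 := div_mem h1 h2
  rwa [mul_div_mul_left _ _ (pow_ne_zero _ (inv_ne_zero hp))] at h3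

lemma span_mem {N : ℕ} {F : IntermediateField K ℂ} {y : Fin (N + 1) → ℂ} (h : ∀ i, y i ∈ F) :
    ∀ z ∈ sp K y, z ∈ F := by
  intro z hz
  have : sp K y ≤ Subalgebra.toSubmodule F.toSubalgebra := by
    unfold sp
    rw [Submodule.span_le]
    rintro _ ⟨i, rfl⟩
    exact h i
  exact this hz

end fields

/-! ## Limits -/

lemma pow_div_tendsto {k d : ℕ} (h : k ≤ d) :
    Tendsto (fun t : ℕ => (t : ℝ) ^ k / (t : ℝ) ^ d) atTop (𝓝 (if k = d then 1 else 0)) := by
  split_ifs with hk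
  · subst hk
    refine tendsto_const_nhds.congr' ?_
    filter_upwards [eventually_ge_atTop 1] with t ht
    have : (t : ℝ) ≠ 0 := by
      have : (1 : ℝ) ≤ t := by exact_mod_cast ht
      positivity
    rw [div_self (pow_ne_zero _ this)]
  · have hlt : k < d := lt_of_le_of_ne h hk
    exact (tendsto_pow_div_pow_atTop_zero (𝕜 := ℝ) hlt).comp tendsto_natCast_atTop_atTop

lemma vp_tendsto0 (d : ℕ) (D : Fin (d + 1) → ℝ) :
    Tendsto (fun a : ℕ => vp d D a 1 / (a : ℝ) ^ d) atTop (𝓝 (D 0)) := by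
  have h : Tendsto (fun a : ℕ => ∑ i : Fin (d + 1), D i * ((a : ℝ) ^ (d - (i : ℕ)) / (a : ℝ) ^ d)) atTop
      (𝓝 (∑ i : Fin (d + 1), D i * (if d - (i : ℕ) = d then 1 else 0))) :=
    tendsto_finsetSum _ fun i _ => (pow_div_tendsto (Nat.sub_le d i)).const_mul (D i)
  have h2 : ∑ i : Fin (d + 1), D i * (if d - (i : ℕ) = d then (1 : ℝ) else 0) = D 0 := by
    rw [Finset.sum_eq_single (0 : Fin (d + 1))]
    · simp
    · intro i _ hi
      have : (i : ℕ) ≠ 0 := fun h => hi (Fin.ext h)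
      have hlt := i.2
      rw [if_neg (by omega), mul_zero]
    · intro h
      exact absurd (Finset.mem_univ _) h
  rw [h2] at h
  refine h.congr fun a => ?_
  unfold vp
  rw [Finset.sum_div]
  refine Finset.sum_congr rfl fun i _ => ?_
  rw [one_pow, mul_one, mul_div_assoc]

lemma vp_tendstod (d : ℕ) (D : Fin (d + 1) → ℝ) :
    Tendsto (fun e : ℕ => vp d D 1 e / (e : ℝ) ^ d) atTop (𝓝 (D (Fin.last d))) := by
  have h : Tendsto (fun e : ℕ => ∑ i : Fin (d + 1), D i * ((e : ℝ) ^ (i : ℕ) / (e : ℝ) ^ d)) atTop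
      (𝓝 (∑ i : Fin (d + 1), D i * (if (i : ℕ) = d then 1 else 0))) :=
    tendsto_finsetSum _ fun i _ => (pow_div_tendsto (Nat.lt_succ_iff.1 i.2)).const_mul (D i)
  have h2 : ∑ i : Fin (d + 1), D i * (if (i : ℕ) = d then (1 : ℝ) else 0) = D (Fin.last d) := by
    rw [Finset.sum_eq_single (Fin.last d)]
    · simp
    · intro i _ hi
      have : (i : ℕ) ≠ d := fun h => hi (Fin.ext h)
      rw [if_neg this, mul_zero]
    · intro h
      exact absurd (Finset.mem_univ _) h
  rw [h2] at h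
  refine h.congr fun a => ?_
  unfold vp
  rw [Finset.sum_div]
  refine Finset.sum_congr rfl fun i _ => ?_
  rw [one_pow, mul_one, mul_div_assoc]

/-- lower bounds of the dimensions and the limit -/
lemma vp_ge {d : ℕ} {D : Fin (d + 1) → ℝ} {a e : ℕ} {f : ℕ → ℝ} {c : ℕ}
    (h : Tendsto (fun t : ℕ => f t / (t : ℝ) ^ d) atTop (𝓝 (vp d D a e)))
    (hf : ∀ t : ℕ, ((c * t : ℕ) : ℝ) ^ d / (d.factorial : ℝ) ≤ f t) :
    (c : ℝ) ^ d / (d.factorial : ℝ) ≤ vp d D a e := by
  refine ge_of_tendsto h ?_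
  filter_upwards [eventually_ge_atTop 1] with t ht
  have h0 : (0 : ℝ) < (t : ℝ) ^ d := by
    have : (1 : ℝ) ≤ t := by exact_mod_cast ht
    positivity
  rw [le_div_iff₀ h0]
  refine le_trans (le_of_eq ?_) (hf t)
  push_cast
  rw [mul_pow]
  ring

lemma low_lim {d : ℕ} {g : ℕ → ℝ} {l : ℝ} (h : Tendsto (fun a : ℕ => g a / (a : ℝ) ^ d) atTop (𝓝 l))
    (hg : ∀ a : ℕ, 1 ≤ a → (a : ℝ) ^ d / (d.factorial : ℝ) ≤ g a) : 1 / (d.factorial : ℝ) ≤ l := by
  refine ge_of_tendsto h ?_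
  filter_upwards [eventually_ge_atTop 1] with t ht
  have h0 : (0 : ℝ) < (t : ℝ) ^ d := by
    have : (1 : ℝ) ≤ t := by exact_mod_cast ht
    positivity
  rw [le_div_iff₀ h0]
  refine le_trans (le_of_eq ?_) (hg t ht)
  ring

/-! ## The theorem -/

theorem vol (hTRN : S_TRN) (hDIF : S_DIF) (hUPG : S_UPG) (hLOG : S_LOG) (hNUMV : S_NUMV) (hISO : S_ISO) : S_VOL := by
  intro K _ _ _ N δ d Γ ξ hG hd
  obtain ⟨iso1, iso2, iso3, iso4⟩ := hISO K N δ Γ ξ hG
  have hx0 : ξ 0 ≠ 0 := iso3 0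
  obtain ⟨p, hp⟩ := Function.ne_iff.1 hx0
  have hp : ξ 0 p ≠ 0 := hp
  have hX1 : (1 : ℂ) ∈ sp K (fun i => (ξ 0 p)⁻¹ * ξ 0 i) :=
    Submodule.subset_span ⟨p, inv_mul_cancel₀ hp⟩
  have hXmem : ∀ i, (ξ 0 p)⁻¹ * ξ 0 i ∈ ratioField K (ξ 0) := fun i => by
    rw [mul_comm, ← div_eq_mul_inv]
    exact ratio_mem (ξ 0) i p
  -- the lower bound
  have hlow : ∀ t : ℕ, (t : ℝ) ^ d / (d.factorial : ℝ) ≤ Module.finrank K (sp K (ξ 0) ^ t : Submodule K ℂ) := by
    intro t
    have h1 := hLOG K ℂ (sp K (fun i => (ξ 0 p)⁻¹ * ξ 0 i)) d (sp_fg _) hX1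
      (by rw [adjoin_eq (ξ 0) hp _ le_rfl (span_mem hXmem)]; exact hd) t
    have h2 := finrank_prod_scale (K := K) (inv_ne_zero hp) (inv_ne_zero hp) (ξ 0) (ξ 0) t 0
    rw [pow_zero, pow_zero, mul_one, mul_one] at h2
    rwa [h2] at h1
  -- the limits
  have hlim : ∀ m : ℕ, ∃ D : Fin (d + 1) → ℝ, (∀ i, 0 ≤ D i) ∧ ∀ a e : ℕ, 1 ≤ a → 1 ≤ e →
      Tendsto (fun t : ℕ =>
        (Module.finrank K (sp K (ξ 0) ^ (a * t) * sp K (ξ m) ^ (e * t) : Submodule K ℂ) : ℝ) /
        (t : ℝ) ^ d) atTop (𝓝 (vp d D a e)) := by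
    intro m
    obtain ⟨q, hq⟩ := Function.ne_iff.1 (iso3 m)
    have hq : ξ m q ≠ 0 := hq
    have hY : ∀ i, (ξ m q)⁻¹ * ξ m i ∈ ratioField K (ξ 0) := by
      intro i
      have h1 := iso1 0 m
      rw [zero_add] at h1
      rw [h1, h1, mul_comm, ← div_eq_mul_inv]
      exact quot_mem (ξ 0) hp (iso2 m i) (iso2 m q)
    set Z : Submodule K ℂ := sp K (fun i => (ξ 0 p)⁻¹ * ξ 0 i) ⊔ sp K (fun i => (ξ m q)⁻¹ * ξ m i) with hZ
    have hZfg : Z.FG := (sp_fg _).sup (sp_fg _)
    have hZ1 : (1 : ℂ) ∈ Z := (le_sup_left : _ ≤ Z) hX1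
    have hZmem : ∀ z ∈ Z, z ∈ ratioField K (ξ 0) := by
      intro z hz
      obtain ⟨u, hu, v, hv, rfl⟩ := Submodule.mem_sup.1 hz
      exact add_mem (span_mem hXmem u hu) (span_mem hY v hv)
    obtain ⟨C, hC0, hC⟩ := hUPG K ℂ Z d hZfg hZ1
      (by rw [adjoin_eq (ξ 0) hp _ le_sup_left hZmem]; exact hd)
    obtain ⟨I, hI1, hI2, -⟩ := hTRN K ℂ 2 N ![ξ 0, ξ m]
    obtain ⟨B, hB⟩ := hDIF K 2 N (d + 1) I hI1
    have hHF : HF I = hf K ![ξ 0, ξ m] := funext hI2
    rw [hHF] at hB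
    have hhf : ∀ β : Fin 2 → ℕ, hf K ![ξ 0, ξ m] β =
        Module.finrank K (sp K (ξ 0) ^ β 0 * sp K (ξ m) ^ β 1 : Submodule K ℂ) := by
      intro β
      unfold hf
      rw [Fin.prod_univ_two]
      rfl
    obtain ⟨D, hD0, hD⟩ := hNUMV d (hf K ![ξ 0, ξ m]) B C hB (by
      intro β
      rw [hhf, ← finrank_prod_scale (K := K) (inv_ne_zero hp) (inv_ne_zero hq) (ξ 0) (ξ m) (β 0) (β 1)]
      have h1 : (sp K (fun i => (ξ 0 p)⁻¹ * ξ 0 i) ^ β 0 * sp K (fun i => (ξ m q)⁻¹ * ξ m i) ^ β 1 :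
          Submodule K ℂ) ≤ Z ^ (β 0 + β 1) := by
        rw [pow_add]
        exact mul_le_mul' (pow_le_pow_left' le_sup_left _) (pow_le_pow_left' le_sup_right _)
      have h2 := finrank_le_of_le (hZfg.pow _) h1
      have h3 := hC (β 0 + β 1)
      push_cast at h3 ⊢
      exact le_trans (by exact_mod_cast h2) h3)
    refine ⟨D, hD0, fun a e ha he => ?_⟩
    refine (hD a e ha he).congr fun t => ?_
    rw [hhf]
    change (((Module.finrank K (sp K (ξ 0) ^ (a * t) * sp K (ξ m) ^ (e * t) : Submodule K ℂ) : ℤ) : ℝ)) / _ = _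
    rw [Int.cast_natCast]
  choose D hD0 hD using hlim
  refine ⟨D, hD0, hD, hlow, ?_, ?_⟩
  · intro m
    obtain ⟨q, hq⟩ := Function.ne_iff.1 (iso3 m)
    have hq : ξ m q ≠ 0 := hq
    refine low_lim (vp_tendsto0 d (D m)) fun a ha => ?_
    have h1 := vp_ge (c := a) (hD m a 1 ha le_rfl) fun t => by
      refine (hlow (a * t)).trans ?_
      exact_mod_cast finrank_left_le (K := K) (ξ 0) (ξ m) hq (a * t) (1 * t)
    rwa [Nat.cast_one] at h1
  · intro m
    refine low_lim (vp_tendstod d (D m)) fun e he => ?_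
    have h1 := vp_ge (c := e) (hD m 1 e le_rfl he) fun t => by
      refine (hlow (e * t)).trans ?_
      have h2 := iso4 m 0 (e * t) 0
      rw [pow_zero, pow_zero, mul_one, mul_one] at h2
      have h3 := finrank_left_le (K := K) (ξ m) (ξ 0) hp (e * t) (1 * t)
      rw [h2, mul_comm (sp K (ξ m) ^ (e * t))] at h3
      exact_mod_cast h3
    rwa [Nat.cast_one] at h1

end Pool.Agent.Helper16.GO
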